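import Mathlib

/-! Small balls and preimages of small balls under a local diffeomorphism meet in convex sets. -/

open Set Filter Metric
open scoped Topology ContDiff

namespace Pool.Agent.MP_d9582c_gt.H4

variable {F : Type*} [NormedAddCommGroup F] [InnerProductSpace ℝ F]

lemma taylor_le {B : Set F} (hB : Convex ℝ B) {ψ : F → F} {D : F → F →L[ℝ] F} {M : ℝ} (hM : 0 ≤ M)
    (h1 : ∀ z ∈ B, HasFDerivAt ψ (D z) z) (h2 : ∀ z ∈ B, ∀ z' ∈ B, ‖D z - D z'‖ ≤ M * ‖z - z'‖)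
    {p a : F} (hp : p ∈ B) (ha : a ∈ B) : ‖ψ a - ψ p - D p (a - p)‖ ≤ M * ‖a - p‖ * ‖a - p‖ := by
  refine ((convex_closedBall p ‖a - p‖).inter hB).norm_image_sub_le_of_norm_hasFDerivWithin_le'
    (fun z hz => (h1 z hz.2).hasFDerivWithinAt) (fun z hz => (h2 z hz.2 p hp).trans ?_)
    ⟨mem_closedBall_self (norm_nonneg _), hp⟩ ⟨by simp [dist_eq_norm], ha⟩
  exact mul_le_mul_of_nonneg_left (by simpa [dist_eq_norm] using hz.1) hM

lemma convex_core {B : Set F} (hB : Convex ℝ B) {ψ : F → F} {D : F → F →L[ℝ] F} {M c d r : ℝ}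
    (hM : 0 ≤ M) (hc : 0 ≤ c) (h1 : ∀ z ∈ B, HasFDerivAt ψ (D z) z)
    (h2 : ∀ z ∈ B, ∀ z' ∈ B, ‖D z - D z'‖ ≤ M * ‖z - z'‖)
    (h3 : ∀ a ∈ B, ∀ b ∈ B, c * ‖a - b‖ ≤ ‖ψ a - ψ b‖) (h4 : ∀ a ∈ B, ∀ b ∈ B, ‖a - b‖ ≤ d)
    (h5 : 2 * r * M + M ^ 2 * d ^ 2 ≤ c ^ 2) (x : F) : Convex ℝ (B ∩ ψ ⁻¹' ball x r) := by
  rintro a ⟨ha, ha'⟩ b ⟨hb, hb'⟩ s t hs ht hst
  have hp := hB ha hb hs ht hst
  refine ⟨hp, ?_⟩
  obtain rfl : s = 1 - t := by linarith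
  have e1 := taylor_le hB hM h1 h2 hp ha
  have e2 := taylor_le hB hM h1 h2 hp hb
  have a1 : a - ((1 - t) • a + t • b) = t • (a - b) := by module
  have a2 : b - ((1 - t) • a + t • b) = -((1 - t) • (a - b)) := by module
  rw [a1] at e1
  rw [a2] at e2
  simp only [mem_preimage, mem_ball, dist_eq_norm] at ha' hb' ⊢
  set p := (1 - t) • a + t • b
  have a3 : ψ p - x = ((1 - t) • (ψ a - x) + t • (ψ b - x)) -
      ((1 - t) • (ψ a - ψ p - D p (t • (a - b))) + t • (ψ b - ψ p - D p (-((1 - t) • (a - b))))) := by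
    simp only [map_neg, map_smul]; module
  have a4 : ‖(1 - t) • (ψ a - x) + t • (ψ b - x)‖ ^ 2 =
      (1 - t) * ‖ψ a - x‖ ^ 2 + t * ‖ψ b - x‖ ^ 2 - (1 - t) * t * ‖ψ a - ψ b‖ ^ 2 := by
    rw [show ψ a - ψ b = (ψ a - x) - (ψ b - x) by abel]
    generalize ψ a - x = u
    generalize ψ b - x = v
    rw [norm_add_sq_real, norm_sub_sq_real u v, norm_smul, norm_smul, inner_smul_left,
      inner_smul_right, Real.norm_of_nonneg hs, Real.norm_of_nonneg ht]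
    simp only [conj_trivial]
    ring
  have a5 : ‖(1 - t) • (ψ a - ψ p - D p (t • (a - b))) +
      t • (ψ b - ψ p - D p (-((1 - t) • (a - b))))‖ ≤ M * ((1 - t) * t) * ‖a - b‖ ^ 2 := by
    refine (norm_add_le _ _).trans ?_
    rw [norm_neg] at e2
    rw [norm_smul, Real.norm_of_nonneg ht] at e1
    rw [norm_smul, Real.norm_of_nonneg hs] at e2
    rw [norm_smul, norm_smul, Real.norm_of_nonneg hs, Real.norm_of_nonneg ht]
    nlinarith [mul_le_mul_of_nonneg_left e1 hs, mul_le_mul_of_nonneg_left e2 ht]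
  have a6 := (norm_sub_le ((1 - t) • (ψ a - x) + t • (ψ b - x)) _).trans (add_le_add le_rfl a5)
  rw [← a3] at a6
  refine a6.trans_lt ?_
  have a7 := h3 a ha b hb
  have a8 := h4 a ha b hb
  have hr : 0 < r := (norm_nonneg _).trans_lt ha'
  have b1 : ‖ψ a - x‖ ^ 2 < r ^ 2 := by gcongr
  have b2 : ‖ψ b - x‖ ^ 2 < r ^ 2 := by gcongr
  have b3 : (1 - t) * ‖ψ a - x‖ ^ 2 + t * ‖ψ b - x‖ ^ 2 < r ^ 2 := by
    rcases ht.eq_or_lt with rfl | ht'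
    · simpa using b1
    · nlinarith [mul_le_mul_of_nonneg_left b1.le hs, mul_lt_mul_of_pos_left b2 ht']
  have b4 : c ^ 2 * ‖a - b‖ ^ 2 ≤ ‖ψ a - ψ b‖ ^ 2 := by rw [← mul_pow]; gcongr
  have b5 : ‖a - b‖ ^ 2 ≤ d ^ 2 := by gcongr
  have b6 : 0 ≤ (1 - t) * t := mul_nonneg hs ht
  have b7 : (1 - t) * t ≤ 1 := by nlinarith
  generalize ‖(1 - t) • (ψ a - x) + t • (ψ b - x)‖ = y at *
  generalize (1 - t) * t = w at *
  have b8 : 0 ≤ ‖a - b‖ ^ 2 := by positivity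
  generalize ‖a - b‖ ^ 2 = δ at *
  have b9 : y ^ 2 < r ^ 2 - w * (c ^ 2 * δ) := by
    nlinarith [mul_le_mul_of_nonneg_left b4 b6]
  have c1 : 0 ≤ M * w * δ := by positivity
  have c2 : 2 * r * (M * w * δ) + (M * w * δ) ^ 2 ≤ w * (c ^ 2 * δ) := by
    have : w * δ ≤ d ^ 2 := (mul_le_of_le_one_left b8 b7).trans b5
    have h6 : 2 * r * M + M ^ 2 * (w * δ) ≤ c ^ 2 := by nlinarith [sq_nonneg M]
    nlinarith [mul_le_mul_of_nonneg_left h6 (mul_nonneg b6 b8)]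
  have c3 : y < r := by
    refine lt_of_pow_lt_pow_left₀ 2 hr.le ?_
    nlinarith [mul_nonneg b6 (mul_nonneg (sq_nonneg c) b8)]
  refine lt_of_pow_lt_pow_left₀ 2 hr.le ?_
  nlinarith [mul_le_mul_of_nonneg_right c3.le c1]

lemma convex_local [FiniteDimensional ℝ F] {ψ : F → F} {z : F} (h : ContDiffAt ℝ ∞ ψ z)
    (hi : Function.Injective (fderiv ℝ ψ z)) : ∀ᶠ ρ in 𝓝[>] 0, ∀ r ≤ ρ, ∀ z0 x,
      ball z0 r ⊆ ball z ρ → Convex ℝ (ball z0 r ∩ ψ ⁻¹' ball x r) := by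
  obtain ⟨k, hk0, hk⟩ := (fderiv ℝ ψ z).toLinearMap.exists_antilipschitzWith
    (LinearMap.ker_eq_bot.2 hi)
  obtain ⟨M, s, hs, hM⟩ := (h.fderiv_right (m := 1)
    (WithTop.coe_le_coe.2 (le_top : (1 + 1 : ℕ∞) ≤ ⊤))).exists_lipschitzOnWith
  have h1 : ∀ᶠ y in 𝓝 z, DifferentiableAt ℝ ψ y :=
    ((h.of_le (m := 1) (by exact_mod_cast le_top)).eventually (by simp)).mono fun y hy =>
      hy.differentiableAt (by simp)
  obtain ⟨ρ0, h0, h2⟩ := Metric.mem_nhds_iff.1 (inter_mem hs h1)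
  have hc : (0 : ℝ) < (k : ℝ)⁻¹ := by positivity
  have t1 : ∀ᶠ ρ : ℝ in 𝓝 0, 3 * ρ * M < (k : ℝ)⁻¹ / 2 :=
    (by fun_prop : Continuous fun ρ : ℝ => 3 * ρ * M).continuousAt.eventually_lt continuousAt_const
      (by simpa using hc)
  have t2 : ∀ᶠ ρ : ℝ in 𝓝 0, 2 * ρ * M + M ^ 2 * (2 * ρ) ^ 2 < ((k : ℝ)⁻¹ / 2) ^ 2 :=
    (by fun_prop : Continuous fun ρ : ℝ => 2 * ρ * M + M ^ 2 * (2 * ρ) ^ 2).continuousAt.eventually_lt
      continuousAt_const (by simp; positivity)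
  filter_upwards [nhdsWithin_le_nhds t1, nhdsWithin_le_nhds t2,
    nhdsWithin_le_nhds (eventually_lt_nhds h0)] with ρ t1 t2 t3 r hr z0 x hb
  have hM0 : (0 : ℝ) ≤ M := M.2
  have hb' := hb.trans ((ball_subset_ball t3.le).trans h2)
  have d1 : ∀ y ∈ ball z0 r, HasFDerivAt ψ (fderiv ℝ ψ y) y := fun y hy => (hb' hy).2.hasFDerivAt
  have d2 : ∀ y ∈ ball z0 r, ∀ y' ∈ ball z0 r, ‖fderiv ℝ ψ y - fderiv ℝ ψ y'‖ ≤ M * ‖y - y'‖ :=
    fun y hy y' hy' => hM.norm_sub_le (hb' hy).1 (hb' hy').1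
  have d4 : ∀ a ∈ ball z0 r, ∀ b ∈ ball z0 r, ‖a - b‖ ≤ 2 * ρ := fun a ha b hb => by
    have := dist_triangle_right a b z0
    rw [mem_ball] at ha hb
    rw [← dist_eq_norm]; linarith
  refine convex_core (c := (k : ℝ)⁻¹ / 2) (d := 2 * ρ) (convex_ball _ _) hM0 (by positivity) d1 d2
    (fun a ha b hb1 => ?_) d4 (by linarith [mul_le_mul_of_nonneg_right hr hM0]) x
  have e1 := taylor_le (convex_ball _ _) hM0 d1 d2 hb1 ha
  have e2 : ‖a - b‖ ≤ k * ‖fderiv ℝ ψ z (a - b)‖ := by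
    simpa [dist_eq_norm] using hk.le_mul_dist (a - b) 0
  have e3 : ‖(fderiv ℝ ψ z - fderiv ℝ ψ b) (a - b)‖ ≤ M * ρ * ‖a - b‖ := by
    refine (ContinuousLinearMap.le_opNorm _ _).trans (mul_le_mul_of_nonneg_right ?_ (norm_nonneg _))
    refine (hM.norm_sub_le (mem_of_mem_nhds hs) (hb' hb1).1).trans
      (mul_le_mul_of_nonneg_left ?_ hM0)
    rw [← dist_eq_norm, dist_comm]
    exact (hb hb1).le
  have e4 : fderiv ℝ ψ z (a - b) = (ψ a - ψ b) - (ψ a - ψ b - fderiv ℝ ψ b (a - b)) +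
      (fderiv ℝ ψ z - fderiv ℝ ψ b) (a - b) := by simp
  have e5 : ‖fderiv ℝ ψ z (a - b)‖ ≤ ‖ψ a - ψ b‖ + M * ‖a - b‖ * ‖a - b‖ + M * ρ * ‖a - b‖ := by
    rw [e4]
    exact (norm_add_le _ _).trans (add_le_add ((norm_sub_le _ _).trans (add_le_add le_rfl e1)) e3)
  have e6 : (k : ℝ)⁻¹ * ‖a - b‖ ≤ ‖fderiv ℝ ψ z (a - b)‖ := by
    rw [inv_mul_le_iff₀ (by exact_mod_cast hk0)]; exact e2
  have e7 := mul_le_mul_of_nonneg_left (d4 a ha b hb1) (mul_nonneg hM0 (norm_nonneg (a - b)))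
  have e8 := mul_le_mul_of_nonneg_right t1.le (norm_nonneg (a - b))
  nlinarith

lemma convex_compact [FiniteDimensional ℝ F] {ψ : F → F} {W K : Set F} (hW : IsOpen W)
    (hK : IsCompact K) (hKW : K ⊆ W) (h : ContDiffOn ℝ ∞ ψ W)
    (hi : ∀ z ∈ K, Function.Injective (fderiv ℝ ψ z)) : ∀ᶠ r in 𝓝[>] 0, ∀ z1 ∈ K, ∀ z0 x,
      z1 ∈ ball z0 r → Convex ℝ (ball z0 r ∩ W ∩ ψ ⁻¹' ball x r) := by
  refine hK.induction_on (p := fun K => ∀ᶠ r in 𝓝[>] 0, ∀ z1 ∈ K, ∀ z0 x,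
      z1 ∈ ball z0 r → Convex ℝ (ball z0 r ∩ W ∩ ψ ⁻¹' ball x r)) (by simp)
    (fun s t hst ht => ht.mono fun r hr z hz => hr z (hst hz))
    (fun s t hs ht => (hs.and ht).mono fun r hr z hz => hz.elim (hr.1 z) (hr.2 z)) fun z hz => ?_
  obtain ⟨ρ0, h0, h1⟩ := Metric.isOpen_iff.1 hW z (hKW hz)
  obtain ⟨ρ, h2, h3, h4⟩ := ((convex_local (h.contDiffAt (hW.mem_nhds (hKW hz))) (hi z hz)).and
    (((eventually_lt_nhds h0).filter_mono nhdsWithin_le_nhds).and self_mem_nhdsWithin)).exists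
  replace h4 : 0 < ρ := h4
  refine ⟨ball z (ρ / 2), nhdsWithin_le_nhds (ball_mem_nhds _ (by positivity)), ?_⟩
  filter_upwards [nhdsWithin_le_nhds (eventually_lt_nhds (show 0 < ρ / 4 by positivity))]
    with r hr z1 hz1 z0 x hz0
  have h5 : ball z0 r ⊆ ball z ρ := fun y hy => by
    have := dist_triangle4 y z0 z1 z
    rw [mem_ball] at *
    rw [dist_comm] at hz0
    linarith
  rw [inter_eq_self_of_subset_left (h5.trans ((ball_subset_ball h3.le).trans h1))]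
  exact h2 r (by linarith) z0 x h5

end Pool.Agent.MP_d9582c_gt.H4
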