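import Pool.Agent.MP_d9582c_gt.H34.Stmts
import Pool.Agent.MP_d9582c_gt.H4.Conv

/-! Existence of an equivariant good cover with a partition of unity. -/

open Set Filter Metric
open scoped Topology ContDiff Manifold

namespace Pool.Agent.MP_d9582c_gt.H4

open H34

universe u v

variable {n : ℕ} {M : Type u} [TopologicalSpace M] [ChartedSpace (E n) M]
  [IsManifold 𝓘(ℝ, E n) ∞ M] {G : Type v} [Group G] [MulAction G M]

/-- domain of the transition map -/
def dom (n : ℕ) [ChartedSpace (E n) M] (x y : M) (g : G) : Set (E n) :=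
  (chartAt (E n) x).target ∩ (chartAt (E n) x).symm ⁻¹' ((g • ·) ⁻¹' (chartAt (E n) y).source)

/-- the group element read in two charts -/
noncomputable def trans (n : ℕ) [ChartedSpace (E n) M] (x y : M) (g : G) (z : E n) : E n :=
  chartAt (E n) y (g • (chartAt (E n) x).symm z)

variable (hs : ∀ γ : G, ContMDiff 𝓘(ℝ, E n) 𝓘(ℝ, E n) ∞ fun x : M => γ • x)
include hs

lemma isOpen_dom (x y : M) (g : G) : IsOpen (dom n x y g) :=
  (chartAt (E n) x).isOpen_inter_preimage_symm
    ((chartAt (E n) y).open_source.preimage (hs g).continuous)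

lemma contDiffOn_trans (x y : M) (g : G) : ContDiffOn ℝ ∞ (trans n x y g) (dom n x y g) := by
  rw [← contMDiffOn_iff_contDiffOn]
  exact (contMDiffOn_chart (x := y)).comp ((hs g).comp_contMDiffOn
    ((contMDiffOn_chart_symm (x := x)).mono inter_subset_left)) fun z hz => hz.2

lemma inj_trans (x y : M) (g : G) {z : E n} (hz : z ∈ dom n x y g) :
    Function.Injective (fderiv ℝ (trans n x y g) z) := by
  have h1 : ∀ z ∈ dom n x y g, trans n x y g z ∈ dom n y x g⁻¹ ∧
      trans n y x g⁻¹ (trans n x y g z) = z := fun z hz => by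
    have e : (chartAt (E n) y).symm (trans n x y g z) = g • (chartAt (E n) x).symm z :=
      (chartAt (E n) y).left_inv hz.2
    refine ⟨⟨(chartAt (E n) y).map_source hz.2, ?_⟩, ?_⟩
    · simp only [mem_preimage, e, inv_smul_smul]
      exact (chartAt (E n) x).map_target hz.1
    · rw [trans, e, inv_smul_smul, (chartAt (E n) x).right_inv hz.1]
  have d1 := ((contDiffOn_trans hs x y g).contDiffAt
    ((isOpen_dom hs x y g).mem_nhds hz)).differentiableAt (by simp)
  have d2 := ((contDiffOn_trans hs y x g⁻¹).contDiffAt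
    ((isOpen_dom hs y x g⁻¹).mem_nhds (h1 z hz).1)).differentiableAt (by simp)
  have h2 : trans n y x g⁻¹ ∘ trans n x y g =ᶠ[𝓝 z] id :=
    eventually_of_mem ((isOpen_dom hs x y g).mem_nhds hz) fun z hz => (h1 z hz).2
  have h3 := (fderiv_comp z d2 d1).symm.trans (h2.fderiv_eq.trans fderiv_id)
  exact Function.LeftInverse.injective (g := fderiv ℝ (trans n y x g⁻¹) (trans n x y g z))
    fun v => DFunLike.congr_fun h3 v

lemma conv_chart [T2Space M] (x y : M) (g : G) {A B : Set (E n)} (hA : IsCompact A)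
    (hB : IsCompact B) (hA' : A ⊆ (chartAt (E n) x).target) (hB' : B ⊆ (chartAt (E n) y).target) :
    ∀ᶠ r in 𝓝[>] 0, ∀ z0 z1, ball z0 r ⊆ A → ball z1 r ⊆ B →
      Convex ℝ (chartAt (E n) x '' ((chartAt (E n) x).symm '' ball z0 r ∩
        {p | g • p ∈ (chartAt (E n) y).symm '' ball z1 r})) := by
  have key : ∀ {A B : Set (E n)}, A ⊆ (chartAt (E n) x).target → B ⊆ (chartAt (E n) y).target →
      chartAt (E n) x '' ((chartAt (E n) x).symm '' A ∩ {p | g • p ∈ (chartAt (E n) y).symm '' B}) =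
        A ∩ dom n x y g ∩ trans n x y g ⁻¹' B := fun {A B} hA hB => by
    ext z
    constructor
    · rintro ⟨_, ⟨⟨a, ha, rfl⟩, b, hb, e⟩, rfl⟩
      rw [(chartAt (E n) x).right_inv (hA ha)]
      refine ⟨⟨ha, hA ha, ?_⟩, ?_⟩
      · simp only [mem_preimage, ← e]
        exact (chartAt (E n) y).map_target (hB hb)
      · rwa [mem_preimage, trans, ← e, (chartAt (E n) y).right_inv (hB hb)]
    · rintro ⟨⟨h1, h2, h3⟩, h4⟩
      exact ⟨_, ⟨⟨z, h1, rfl⟩, _, h4, (chartAt (E n) y).left_inv h3⟩,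
        (chartAt (E n) x).right_inv h2⟩
  have c1 := hA.image_of_continuousOn ((chartAt (E n) x).continuousOn_symm.mono hA')
  have c2 := hB.image_of_continuousOn ((chartAt (E n) y).continuousOn_symm.mono hB')
  have c3 : IsCompact (A ∩ dom n x y g ∩ trans n x y g ⁻¹' B) := by
    rw [← key hA' hB']
    refine (c1.inter_right (c2.isClosed.preimage (hs g).continuous)).image_of_continuousOn
      ((chartAt (E n) x).continuousOn.mono ?_)
    rintro _ ⟨⟨a, ha, rfl⟩, -⟩
    exact (chartAt (E n) x).map_target (hA' ha)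
  filter_upwards [convex_compact (isOpen_dom hs x y g) c3 (fun z hz => hz.1.2)
    (contDiffOn_trans hs x y g) fun z hz => inj_trans hs x y g hz.1.2] with r hr z0 z1 h0 h1
  rw [key (h0.trans hA') (h1.trans hB')]
  rcases (ball z0 r ∩ dom n x y g ∩ trans n x y g ⁻¹' ball z1 r).eq_empty_or_nonempty with h | ⟨z, hz⟩
  · rw [h]; exact convex_empty
  · exact hr z ⟨⟨h0 hz.1.1, hz.1.2⟩, h1 hz.2⟩ z0 z1 hz.1.1

lemma exists_bump [T2Space M] [SecondCountableTopology M] [ProperlyDiscontinuousSMul G M]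
    {K O C : Set M} (hK : IsCompact K) (hO : IsOpen O) (hC : IsCompact C) (h1 : K ⊆ O)
    (h2 : O ⊆ C) : ∃ f : M → ℝ, ContMDiff 𝓘(ℝ, E n) 𝓘(ℝ, ℝ) ∞ f ∧ (∀ (γ : G) x, f (γ • x) = f x) ∧
      (∀ x, f x ≠ 0 → ∃ γ : G, γ • x ∈ C) ∧ ∀ x ∈ K, f x ≠ 0 := by
  have : LocallyCompactSpace M := ChartedSpace.locallyCompactSpace (E n) M
  obtain ⟨β, b0, b1, b2⟩ := exists_contMDiffMap_zero_one_of_isClosed (n := ⊤) 𝓘(ℝ, E n)
    hO.isClosed_compl hK.isClosed (disjoint_compl_left_iff_subset.2 h1)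
  have b3 : ∀ x, β x ≠ 0 → x ∈ C := fun x hx => h2 (by_contra fun h => hx (b0 h))
  have lf : LocallyFinite fun γ : G => Function.support fun x => β (γ • x) := fun x => by
    obtain ⟨L, hL, hx⟩ := exists_compact_mem_nhds x
    refine ⟨L, hx, (ProperlyDiscontinuousSMul.finite_disjoint_inter_image (Γ := G) hL hC).subset ?_⟩
    rintro γ ⟨y, hy, hy'⟩
    exact ⟨_, ⟨y, hy', rfl⟩, b3 _ hy⟩
  refine ⟨fun x => ∑ᶠ γ : G, β (γ • x), contMDiff_finsum (fun γ => β.contMDiff.comp (hs γ)) lf,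
    fun γ x => ?_, fun x hx => ?_, fun x hx => ?_⟩
  · simpa only [Equiv.coe_mulRight, mul_smul] using
      finsum_comp_equiv (Equiv.mulRight γ) (f := fun γ : G => β (γ • x))
  · by_contra h
    push Not at h
    exact hx (finsum_eq_zero_of_forall_eq_zero fun γ => by_contra fun h' => h γ (b3 _ h'))
  · exact (finsum_pos (fun γ => (b2 _).1) ⟨1, by simp [b1 hx]⟩ (lf.point_finite x)).ne'

omit hs in
theorem cover : CoverStmt.{u, v} := by
  intro n M _ _ _ _ _ G _ _ _ hs hfree ⟨K, hK, hKG⟩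
  classical
  have : LocallyCompactSpace M := ChartedSpace.locallyCompactSpace (E n) M
  have : ContinuousConstSMul G M := ⟨fun γ => (hs γ).continuous⟩
  have h1 : ∀ x : M, ∃ R > 0, closedBall (chartAt (E n) x x) (2 * R) ⊆ (chartAt (E n) x).target ∧
      ∀ (γ : G) p, p ∈ (chartAt (E n) x).symm '' closedBall (chartAt (E n) x x) (2 * R) →
        γ • p ∈ (chartAt (E n) x).symm '' closedBall (chartAt (E n) x x) (2 * R) → γ = 1 := by
    intro x
    obtain ⟨V, hV, h⟩ := ProperlyDiscontinuousSMul.exists_nhds_image_smul_eq_self G x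
    have a1 : (chartAt (E n) x).symm ⁻¹' V ∈ 𝓝 (chartAt (E n) x x) :=
      ((chartAt (E n) x).continuousAt_symm (mem_chart_target _ x)).preimage_mem_nhds
        (by rwa [(chartAt (E n) x).left_inv (mem_chart_source _ x)])
    obtain ⟨ε, h0, a2⟩ := nhds_basis_closedBall.mem_iff.1
      (inter_mem (chart_target_mem_nhds (E n) x) a1)
    refine ⟨ε / 2, by positivity, ?_⟩
    rw [show 2 * (ε / 2) = ε by ring]
    refine ⟨fun z hz => (a2 hz).1, ?_⟩
    rintro γ _ ⟨a, ha, rfl⟩ ⟨b, hb, e⟩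
    exact hfree γ x (h γ ⟨_, ⟨_, (a2 ha).2, rfl⟩, by simp only [← e]; exact (a2 hb).2⟩)
  choose R R0 R1 R2 using h1
  have op : ∀ (x : M) (z : E n) (r : ℝ), ball z r ⊆ closedBall (chartAt (E n) x x) (2 * R x) →
      IsOpen ((chartAt (E n) x).symm '' ball z r) := fun x z r h =>
    (chartAt (E n) x).isOpen_image_symm_of_subset_target isOpen_ball (h.trans (R1 x))
  have cp : ∀ (x : M) (z : E n) (r : ℝ), closedBall z r ⊆ closedBall (chartAt (E n) x x) (2 * R x) →
      IsCompact ((chartAt (E n) x).symm '' closedBall z r) := fun x z r h =>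
    (isCompact_closedBall z r).image_of_continuousOn
      ((chartAt (E n) x).continuousOn_symm.mono (h.trans (R1 x)))
  obtain ⟨T, hT⟩ := hK.elim_finite_subcover
    (fun x => (chartAt (E n) x).symm '' ball (chartAt (E n) x x) (R x))
    (fun x => op x _ _ (ball_subset_closedBall.trans
      (closedBall_subset_closedBall (by linarith [R0 x]))))
    fun x _ => mem_iUnion.2 ⟨x, _, mem_ball_self (R0 x),
      (chartAt (E n) x).left_inv (mem_chart_source _ x)⟩
  have h2 : ∀ x y : M, ∀ᶠ r in 𝓝[>] 0, ∀ (g : G) z0 z1,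
      ball z0 r ⊆ closedBall (chartAt (E n) x x) (2 * R x) →
      ball z1 r ⊆ closedBall (chartAt (E n) y y) (2 * R y) →
      Convex ℝ (chartAt (E n) x '' ((chartAt (E n) x).symm '' ball z0 r ∩
        {p | g • p ∈ (chartAt (E n) y).symm '' ball z1 r})) := fun x y => by
    have fin := ProperlyDiscontinuousSMul.finite_disjoint_inter_image (Γ := G)
      (cp x _ _ subset_rfl) (cp y _ _ subset_rfl)
    filter_upwards [(eventually_all_finite fin).2 fun g _ => conv_chart hs x y g
      (isCompact_closedBall _ _) (isCompact_closedBall _ _) (R1 x) (R1 y)] with r hr g z0 z1 a0 a1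
    rcases ((chartAt (E n) x).symm '' ball z0 r ∩
      {p | g • p ∈ (chartAt (E n) y).symm '' ball z1 r}).eq_empty_or_nonempty with h | ⟨p, hp⟩
    · rw [h, image_empty]; exact convex_empty
    · exact hr g ⟨_, ⟨p, image_mono a0 hp.1, rfl⟩, image_mono a1 hp.2⟩ z0 z1 a0 a1
  obtain ⟨r, ⟨r1, r2⟩, r0⟩ := ((((eventually_all_finset T).2 fun x _ =>
    (eventually_all_finset T).2 fun y _ => h2 x y).and ((eventually_all_finset T).2 fun x _ =>
      (eventually_lt_nhds (R0 x)).filter_mono nhdsWithin_le_nhds)).and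
        self_mem_nhdsWithin).exists
  replace r0 : 0 < r := r0
  let ι := {a : M × E n // a.1 ∈ T ∧ a.2 ∈ ball (chartAt (E n) a.1 a.1) (R a.1)}
  have sub : ∀ (a : ι) (s : ℝ), s ≤ r →
      closedBall a.1.2 s ⊆ closedBall (chartAt (E n) a.1.1 a.1.1) (2 * R a.1.1) := fun a s h =>
    closedBall_subset_closedBall' (by linarith [r2 _ a.2.1, mem_ball.1 a.2.2])
  have sub' : ∀ (a : ι) (s : ℝ), s ≤ r →
      ball a.1.2 s ⊆ closedBall (chartAt (E n) a.1.1 a.1.1) (2 * R a.1.1) := fun a s h =>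
    ball_subset_closedBall.trans (sub a s h)
  obtain ⟨S, hS⟩ := hK.elim_finite_subcover
    (fun a : ι => (chartAt (E n) a.1.1).symm '' ball a.1.2 (r / 4))
    (fun a => op _ _ _ (sub' a _ (by linarith))) fun p hp => by
      obtain ⟨x, hx, z, hz, rfl⟩ := mem_iUnion₂.1 (hT hp)
      exact mem_iUnion.2 ⟨⟨(x, z), hx, hz⟩, z, mem_ball_self (by positivity), rfl⟩
  have h3 := fun a : ι => exists_bump hs (cp _ _ _ (sub a (r / 4) (by linarith)))
    (op _ _ _ (sub' a (r / 2) (by linarith))) (cp _ _ _ (sub a (r / 2) (by linarith)))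
    (image_mono (closedBall_subset_ball (by linarith))) (image_mono ball_subset_closedBall)
  choose f f1 f2 f3 f4 using h3
  let e : Fin S.card → ι := fun i => (S.equivFin.symm i).1
  have pos : ∀ x, 0 < ∑ i, f (e i) x ^ 2 := fun x => by
    obtain ⟨γ, hγ⟩ := hKG x
    obtain ⟨a, ha, h⟩ := mem_iUnion₂.1 (hS hγ)
    refine Finset.sum_pos' (fun i _ => sq_nonneg _) ⟨S.equivFin ⟨a, ha⟩, Finset.mem_univ _, ?_⟩
    have := f4 a _ (image_mono ball_subset_closedBall h)
    rw [f2] at this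
    simp only [e, Equiv.symm_apply_apply]
    positivity
  refine ⟨⟨S.card, fun i => (e i).1.1,
    fun i => (chartAt (E n) (e i).1.1).symm '' closedBall (e i).1.2 (r / 2),
    fun i => (chartAt (E n) (e i).1.1).symm '' ball (e i).1.2 r,
    fun i => (chartAt (E n) (e i).1.1).symm '' closedBall (e i).1.2 r,
    fun i x => f (e i) x / √(∑ j, f (e j) x ^ 2),
    fun i => cp _ _ _ (sub _ _ (by linarith)), fun i => op _ _ _ (sub' _ _ le_rfl),
    fun i => cp _ _ _ (sub _ _ le_rfl), fun i => image_mono (closedBall_subset_ball (by linarith)),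
    fun i => image_mono ball_subset_closedBall, fun i => ?_,
    fun i γ x a1 a2 => R2 _ γ x (image_mono (sub' _ _ le_rfl) a1) (image_mono (sub' _ _ le_rfl) a2),
    fun i j γ => r1 _ (e i).2.1 _ (e j).2.1 γ⁻¹ _ _ (sub' _ _ le_rfl) (sub' _ _ le_rfl),
    fun i => (f1 _).div₀ (fun x => ?_) fun x => (Real.sqrt_pos.2 (pos x)).ne',
    fun i γ x => by simp only [f2], fun i x h => f3 _ x (left_ne_zero_of_mul h), fun x => ?_⟩⟩
  · rintro _ ⟨z, hz, rfl⟩
    exact (chartAt (E n) _).map_target (R1 _ (sub _ _ le_rfl hz))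
  · exact (Real.contDiffAt_sqrt (pos x).ne').comp_contMDiffAt (f := fun x => ∑ j, f (e j) x ^ 2)
      (contMDiff_finsetSum (fun j _ => (f1 (e j)).pow 2) x)
  · simp only [div_pow, ← Finset.sum_div, Real.sq_sqrt (pos x).le, div_self (pos x).ne']

end Pool.Agent.MP_d9582c_gt.H4
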